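import Pool.Agent.N352.PJ.Idx
import Pool.Agent.N160.PP.BOX

/-!
# PJ/MAIN (for helper352, project PJ): a positive proportion, from the parts

By helper415, after the end of `Pool/Agent/N874/PP/Cnt.lean` of helper874.
-/

set_option autoImplicit false
set_option linter.all false

open Polynomial IsDedekindDomain
open scoped Classical

namespace Pool.Agent.N415.PJMAIN

open Pool.Agent.N874.PP (nm)
open Pool.Agent.N352.PJ
open Pool.Agent.N160.PP (card_degreeLT mem_degreeLT')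

/-- Counting with fibres of size at most `2 ^ r` (helper874). -/
theorem card_fib {α β γ : Type} [DecidableEq γ] {G : Set α} {H : Set β} (hG : G.Finite)
    (hH : H.Finite) (S : Finset γ) (f : Finset γ → α → β)
    (hex : ∀ x ∈ G, ∃ J ⊆ S, f J x ∈ H) (hinj : ∀ J ⊆ S, ∀ x ∈ G, ∀ y ∈ G, f J x = f J y → x = y) :
    G.ncard ≤ 2 ^ S.card * H.ncard := by
  choose! J hJ hf using hex
  have hT : ((fun x => (J x, f (J x) x)) '' G) ⊆
      ((S.powerset : Set (Finset γ)) ×ˢ H) := by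
    rintro _ ⟨x, hx, rfl⟩
    refine ⟨?_, hf x hx⟩
    rw [Finset.mem_coe, Finset.mem_powerset]
    exact hJ x hx
  have hi : Set.InjOn (fun x => (J x, f (J x) x)) G := by
    intro x hx y hy h
    simp only [Prod.mk.injEq] at h
    refine hinj (J x) (hJ x hx) x hx y hy ?_
    rw [h.2, h.1]
  rw [← Set.ncard_image_of_injOn hi]
  refine (Set.ncard_le_ncard hT ((Finset.finite_toSet _).prod hH)).trans ?_
  rw [Set.ncard_prod, Set.ncard_coe_finset, Finset.card_powerset]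

section basic

variable {k : Type} [Field k] {g : ℕ}

/-- the exponent -/
lemma sum_dd (g M : ℕ) : ∑ j : Fin (2 * g), (M * (2 * g + 1 - (j : ℕ)) + 1) = M * dd g + 2 * g := by
  rw [Finset.sum_add_distrib, ← Finset.mul_sum, Finset.sum_const, Finset.card_univ,
    Fintype.card_fin, smul_eq_mul, mul_one]
  congr 2
  have h1 : ∀ n : ℕ, 2 * ∑ j ∈ Finset.range n, (n + 1 - j) = n * (n + 3) := by
    intro n
    induction n with
    | zero => rfl
    | succ n ih =>
      rw [Finset.sum_range_succ']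
      have h2 : ∀ j ∈ Finset.range n, n + 1 + 1 - (j + 1) = n + 1 - j := fun j _ => by omega
      rw [Finset.sum_congr rfl h2, mul_add, ih]
      rw [Nat.sub_zero]
      ring
  have h2 := h1 (2 * g)
  rw [Finset.sum_range] at h2
  unfold dd
  have h3 : 2 * ∑ j : Fin (2 * g), (2 * g + 1 - (j : ℕ)) = 2 * (2 * g ^ 2 + 3 * g) := by
    rw [h2]; ring
  omega

variable [Finite k]

theorem ht_card (g M : ℕ) : {f : k[X][X] | Ht g M f}.Finite ∧
    {f : k[X][X] | Ht g M f}.ncard ≤ Nat.card k ^ (M * dd g + 2 * g) := by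
  set T := ∀ j : Fin (2 * g), degreeLT k (M * (2 * g + 1 - (j : ℕ)) + 1) with hT
  let Φ : {f : k[X][X] | Ht g M f} → T := fun f j => ⟨f.1.coeff j, by
    have h1 := f.2.ht j (by have := j.2; omega)
    exact mem_degreeLT' (by omega)⟩
  have hΦ : Function.Injective Φ := by
    rintro ⟨f, hf⟩ ⟨f', hf'⟩ h
    apply Subtype.ext
    show f = f'
    ext1 j
    rcases Nat.lt_or_ge j (2 * g) with hj | hj
    · exact congrArg (fun t : T => ((t ⟨j, hj⟩ : degreeLT k _) : k[X])) h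
    rcases Nat.eq_or_lt_of_le hj with hj | hj
    · rw [← hj, hf.tr, hf'.tr]
    rcases Nat.eq_or_lt_of_le (Nat.succ_le_of_lt hj) with hj | hj
    · have e1 : f.coeff j = 1 := by
        rw [← hj, Nat.succ_eq_add_one, ← hf.deg]; exact hf.mon
      have e2 : f'.coeff j = 1 := by
        rw [← hj, Nat.succ_eq_add_one, ← hf'.deg]; exact hf'.mon
      rw [e1, e2]
    · rw [coeff_eq_zero_of_natDegree_lt (by rw [hf.deg]; exact hj),
        coeff_eq_zero_of_natDegree_lt (by rw [hf'.deg]; exact hj)]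
  have hfin : Finite {f : k[X][X] | Ht g M f} := Finite.of_injective Φ hΦ
  refine ⟨Set.toFinite _, ?_⟩
  have h1 := Nat.card_le_card_of_injective Φ hΦ
  rw [Nat.card_coe_set_eq] at h1
  refine h1.trans (le_of_eq ?_)
  rw [hT, Nat.card_pi]
  simp only [card_degreeLT]
  rw [Finset.prod_pow_eq_pow_sum, sum_dd]

omit [Finite k] in
/-- twisting and the height -/
theorem ht_scale {M N : ℕ} {f : k[X][X]} (hf : Ht g N f) {D : k[X]} (hM : N + D.natDegree ≤ M) :
    Ht g M (f.scaleRoots D) where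
  mon := by
    rw [monic_scaleRoots_iff]; exact hf.mon
  deg := by rw [natDegree_scaleRoots, hf.deg]
  tr := by rw [coeff_scaleRoots, hf.tr, zero_mul]
  ht := by
    intro j hj
    rw [coeff_scaleRoots, hf.deg]
    refine natDegree_mul_le.trans ?_
    have h1 := hf.ht j hj
    have h2 : (D ^ (2 * g + 1 - j)).natDegree ≤ (2 * g + 1 - j) * D.natDegree := natDegree_pow_le
    calc (f.coeff j).natDegree + (D ^ (2 * g + 1 - j)).natDegree
        ≤ N * (2 * g + 1 - j) + (2 * g + 1 - j) * D.natDegree := add_le_add h1 h2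
      _ = (N + D.natDegree) * (2 * g + 1 - j) := by ring
      _ ≤ _ := Nat.mul_le_mul_right _ hM

omit [Finite k] in
theorem scale_inj {f f' : k[X][X]} {D : k[X]} (hD : D ≠ 0) (hd : f.natDegree = f'.natDegree)
    (h : f.scaleRoots D = f'.scaleRoots D) : f = f' := by
  ext1 j
  have h1 := congrArg (fun p : k[X][X] => p.coeff j) h
  simp only [coeff_scaleRoots, hd] at h1
  exact mul_right_cancel₀ (pow_ne_zero _ hD) h1

/-- Many polynomials of the family are not bad. -/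
theorem good_card (hFAM : S_FAM) (hBAD : S_BAD) (hEXS : S_EXS) (hg : 1 ≤ g)
    (hp : ((2 * g + 1).factorial : k) ≠ 0) (h2 : (2 : k) ≠ 0) {r : k[X]} (hr : GoodR g r) :
    ∃ (S : Finset k[X]) (s : k[X] → k[X][X]) (c : ℝ), GoodS g S s ∧ 0 < c ∧ ∃ N₀ : ℕ, ∀ N ≥ N₀,
      c * (Nat.card k : ℝ) ^ (2 * N * dd g) ≤
        ({f : k[X][X] | Fam g N r S s f ∧ ¬ LBad g N S s f}.ncard : ℝ) := by
  obtain ⟨c, hc, hfam⟩ := hFAM g k hg hp r hr
  obtain ⟨m, hm⟩ : ∃ m : ℕ, 2 ^ (g + 2) * (Nat.card k : ℝ) ^ dd g / c < 2 ^ m :=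
    pow_unbounded_of_one_lt _ (by norm_num)
  obtain ⟨S, s, hS, hcard⟩ := hEXS g k hg hp m
  obtain ⟨N₁, h1⟩ := hfam S s hS
  obtain ⟨N₂, h2⟩ := hBAD g k hg h2 S s hS
  have hq : (0 : ℝ) < Nat.card k := by exact_mod_cast Nat.card_pos
  set P : ℕ := ∏ Q ∈ S, nm Q ^ (2 * g) with hP
  have hP0 : (0 : ℝ) < P := by
    have : 0 < P := Finset.prod_pos fun Q _ => pow_pos (pow_pos Nat.card_pos _) _
    exact_mod_cast this
  refine ⟨S, s, c / (2 * P), hS, by positivity, max N₁ N₂, fun N hN => ?_⟩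
  have hF := h1 N ((le_max_left _ _).trans hN)
  obtain ⟨hfin, hB⟩ := h2 N ((le_max_right _ _).trans hN)
  have hd := Set.le_ncard_diff {f : k[X][X] | LBad g N S s f} {f : k[X][X] | Fam g N r S s f} hfin
  have e : {f : k[X][X] | Fam g N r S s f} \ {f : k[X][X] | LBad g N S s f} =
      {f : k[X][X] | Fam g N r S s f ∧ ¬ LBad g N S s f} := rfl
  rw [e] at hd
  set F : ℕ := {f : k[X][X] | Fam g N r S s f}.ncard
  set Bd : ℕ := {f : k[X][X] | LBad g N S s f}.ncard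
  set G : ℕ := {f : k[X][X] | Fam g N r S s f ∧ ¬ LBad g N S s f}.ncard
  have hd' : (F : ℝ) ≤ Bd + G := by
    have : F ≤ Bd + G := by omega
    exact_mod_cast this
  have hB' : (2 : ℝ) ^ m * P * Bd ≤ 2 ^ (g + 1) * (Nat.card k : ℝ) ^ ((2 * N + 1) * dd g) := by
    rw [hcard] at hB
    exact_mod_cast hB
  have hF' : c * (Nat.card k : ℝ) ^ (2 * N * dd g) ≤ P * F := hF
  rw [div_lt_iff₀ hc] at hm
  have hPB : P * (Bd : ℝ) ≤ c / 2 * (Nat.card k : ℝ) ^ (2 * N * dd g) := by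
    have h2r : (0 : ℝ) < 2 ^ m := by positivity
    rw [← mul_le_mul_iff_right₀ h2r]
    calc 2 ^ m * (P * (Bd : ℝ)) = 2 ^ m * P * Bd := by ring
      _ ≤ 2 ^ (g + 1) * (Nat.card k : ℝ) ^ ((2 * N + 1) * dd g) := hB'
      _ = (2 ^ (g + 2) * (Nat.card k : ℝ) ^ dd g) * ((Nat.card k : ℝ) ^ (2 * N * dd g) / 2) := by
        rw [show (2 * N + 1) * dd g = 2 * N * dd g + dd g by ring, pow_add]
        ring
      _ ≤ (2 ^ m * c) * ((Nat.card k : ℝ) ^ (2 * N * dd g) / 2) := by gcongr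
      _ = 2 ^ m * (c / 2 * (Nat.card k : ℝ) ^ (2 * N * dd g)) := by ring
  have hPG : c / 2 * (Nat.card k : ℝ) ^ (2 * N * dd g) ≤ P * G := by
    have : (P : ℝ) * F ≤ P * Bd + P * G := by
      rw [← mul_add]
      exact mul_le_mul_of_nonneg_left hd' hP0.le
    linarith
  calc c / (2 * P) * (Nat.card k : ℝ) ^ (2 * N * dd g)
      = c / 2 * (Nat.card k : ℝ) ^ (2 * N * dd g) / P := by field_simp
    _ ≤ P * G / P := by gcongr
    _ = G := by field_simp

end basic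

/-- PJ-MAIN -/
theorem main (hFAM : S_FAM) (hBAD : S_BAD) (hTW : S_TW) (hEXS : S_EXS) (hGR : S_GR)
    (hIRK : S_IRK) : S_MAIN := by
  intro g k K _ _ _ _ _ hg hp
  have h2 : (2 : k) ≠ 0 := by
    intro h0
    apply hp
    obtain ⟨d, hd⟩ : 2 ∣ (2 * g + 1).factorial := Nat.dvd_factorial (by norm_num) (by omega)
    rw [hd, Nat.cast_mul, Nat.cast_ofNat, h0, zero_mul]
  obtain ⟨r, hr⟩ := hGR g k hp
  obtain ⟨S, s, c, hS, hc, N₀, hN₀⟩ := good_card hFAM hBAD hEXS hg hp h2 hr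
  set e : ℕ := (∏ Q ∈ S, Q).natDegree with he
  have hq : (0 : ℝ) < Nat.card k := by exact_mod_cast Nat.card_pos
  have hq1 : (1 : ℝ) ≤ Nat.card k := by exact_mod_cast Nat.card_pos
  have hS0 : (∏ Q ∈ S, Q) ≠ 0 := by
    rw [Finset.prod_ne_zero_iff]
    exact fun Q hQ => (hS Q hQ).2.1.ne_zero
  refine ⟨c / (2 ^ S.card * (Nat.card k : ℝ) ^ ((e + 1) * dd g + 2 * g)), by positivity,
    2 * N₀ + e, fun M hM => ⟨(ht_card g M).1, ?_⟩⟩
  obtain ⟨N, hN, hN1, hN2⟩ : ∃ N, N₀ ≤ N ∧ 2 * N + e ≤ M ∧ M ≤ 2 * N + e + 1 :=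
    ⟨(M - e) / 2, by omega, by omega, by omega⟩
  have hG := hN₀ N hN
  set H := {f : k[X][X] | Ht g M f ∧ (f.map (algebraMap k[X] K)).Separable ∧
        Irreducible (f.map (algebraMap k[X] K)) ∧ SelZero K f} with hH
  set G := {f : k[X][X] | Fam g N r S s f ∧ ¬ LBad g N S s f} with hGdef
  have hHf : H.Finite := (ht_card g M).1.subset fun f hf => hf.1
  have hGf : G.Finite := (ht_card g (2 * N)).1.subset fun f hf => hf.1.ht
  have hJ0 : ∀ J ⊆ S, (∏ Q ∈ J, Q) ≠ 0 := by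
    intro J hJ
    rw [Finset.prod_ne_zero_iff]
    exact fun Q hQ => (hS Q (hJ hQ)).2.1.ne_zero
  have hcard := card_fib hGf hHf S (fun J f => f.scaleRoots (∏ Q ∈ J, Q)) (by
      intro f hf
      obtain ⟨J, hJ, hsel⟩ := hTW g k K f N r S s hg h2 hr hS hf.1 hf.2
      have hDle : (∏ Q ∈ J, Q).natDegree ≤ e :=
        natDegree_le_of_dvd (Finset.prod_dvd_prod_of_subset _ _ _ hJ) hS0
      obtain ⟨-, i2, i3⟩ := hIRK g k K f N r (∏ Q ∈ J, Q) hf.1.ht hr hf.1.inf (hJ0 J hJ)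
      exact ⟨J, hJ, ht_scale hf.1.ht (by omega), (i3 hf.1.sq.ne_zero).2, i2, hsel⟩) (by
      intro J hJ x hx y hy hxy
      exact scale_inj (hJ0 J hJ) (by rw [hx.1.ht.deg, hy.1.ht.deg]) hxy)
  have hcard' : (G.ncard : ℝ) ≤ 2 ^ S.card * H.ncard := by exact_mod_cast hcard
  have hM' : ({f : k[X][X] | Ht g M f}.ncard : ℝ) ≤
      (Nat.card k : ℝ) ^ (2 * N * dd g) * (Nat.card k : ℝ) ^ ((e + 1) * dd g + 2 * g) := by
    have h3 : ({f : k[X][X] | Ht g M f}.ncard : ℝ) ≤ (Nat.card k : ℝ) ^ (M * dd g + 2 * g) := by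
      exact_mod_cast (ht_card (k := k) g M).2
    refine h3.trans ?_
    rw [← pow_add]
    refine pow_le_pow_right₀ hq1 ?_
    have h4 : M * dd g ≤ (2 * N + e + 1) * dd g := Nat.mul_le_mul_right _ hN2
    calc M * dd g + 2 * g ≤ (2 * N + e + 1) * dd g + 2 * g := by omega
      _ = _ := by ring
  have hpow : (0 : ℝ) < (Nat.card k : ℝ) ^ ((e + 1) * dd g + 2 * g) := by positivity
  calc c / (2 ^ S.card * (Nat.card k : ℝ) ^ ((e + 1) * dd g + 2 * g)) *
        ({f : k[X][X] | Ht g M f}.ncard : ℝ)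
      ≤ c / (2 ^ S.card * (Nat.card k : ℝ) ^ ((e + 1) * dd g + 2 * g)) *
        ((Nat.card k : ℝ) ^ (2 * N * dd g) * (Nat.card k : ℝ) ^ ((e + 1) * dd g + 2 * g)) :=
        mul_le_mul_of_nonneg_left hM' (by positivity)
    _ = c * (Nat.card k : ℝ) ^ (2 * N * dd g) / 2 ^ S.card := by
        field_simp
    _ ≤ (G.ncard : ℝ) / 2 ^ S.card := by gcongr
    _ ≤ (2 ^ S.card * H.ncard) / 2 ^ S.card := by gcongr
    _ = H.ncard := by field_simp

end Pool.Agent.N415.PJMAIN
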